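import Pool.Agent.U251.PA.FinU

/-!
# Uniform coarse embeddings of C(4)-T(4) complexes

The proof follows `coarse_of_measures'` (`Pool/Agent/helper169_quad/Conv.lean`), with the control
functions chosen before the complex.
-/

set_option autoImplicit false

universe u v w

namespace Pool.Agent.U251.PA

open SimpleGraph Filter Pool.Agent.Helper556_sys Pool.Agent.H169Q

/-- The number of `n < ⌊t⌋` with `2 S n < t`. -/
noncomputable def cnt (S : ℕ → ℕ) (t : ℝ) : ℕ :=
  open Classical in ((Finset.range ⌊t⌋₊).filter fun n => (2 * (S n : ℝ)) < t).card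

theorem cnt_mono (S : ℕ → ℕ) : Monotone (cnt S) := by
  classical
  intro s t hst
  refine Finset.card_le_card fun n hn => ?_
  rw [Finset.mem_filter, Finset.mem_range] at hn ⊢
  exact ⟨lt_of_lt_of_le hn.1 (Nat.floor_mono hst), lt_of_lt_of_le hn.2 hst⟩

theorem cnt_tend (S : ℕ → ℕ) : Tendsto (cnt S) atTop atTop := by
  classical
  rw [tendsto_atTop]
  intro m
  obtain ⟨T, hT⟩ : ∃ T : ℕ, ∀ n, n < m → 2 * S n < T := by
    refine ⟨(∑ n ∈ Finset.range m, 2 * S n) + 1, fun n hn => ?_⟩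
    have := Finset.single_le_sum (f := fun n => 2 * S n) (fun _ _ => Nat.zero_le _)
      (Finset.mem_range.2 hn)
    omega
  filter_upwards [eventually_ge_atTop (max (m : ℝ) T)] with t ht
  have h1 : (m : ℝ) ≤ t := le_trans (le_max_left _ _) ht
  have h2 : (T : ℝ) ≤ t := le_trans (le_max_right _ _) ht
  have h3 : Finset.range m ⊆ (Finset.range ⌊t⌋₊).filter fun n => (2 * (S n : ℝ)) < t := by
    intro n hn
    rw [Finset.mem_range] at hn
    rw [Finset.mem_filter, Finset.mem_range]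
    refine ⟨lt_of_lt_of_le hn (Nat.le_floor h1), ?_⟩
    have h4 : ((2 * S n : ℕ) : ℝ) < (T : ℝ) := by exact_mod_cast hT n hn
    push_cast at h4
    linarith
  have h5 := Finset.card_le_card h3
  rw [Finset.card_range] at h5
  exact h5

/-- A coarse embedding with control functions given by the radii `S n` of the measures. -/
theorem coarse_fix {V : Type u} {G : SimpleGraph V} (hc : G.Connected) {S : ℕ → ℕ}
    {ξ : ℕ → V → lp (fun _ : V => ℝ) 1} (hξ1 : ∀ n x, ξ n x ∈ Sx G x (S n))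
    (hξ2 : ∀ n x y, G.Adj x y → ‖ξ n x - ξ n y‖ ≤ (1 / 2) ^ n) :
    ∃ (H : Type u) (_ : NormedAddCommGroup H) (_ : InnerProductSpace ℝ H)
      (_ : CompleteSpace H) (f : V → H), ∀ x y : V,
        Real.sqrt (2 * cnt S (G.dist x y)) ≤ ‖f x - f y‖ ∧
        ‖f x - f y‖ ≤ Real.sqrt (2 * (G.dist x y : ℝ)) := by
  classical
  obtain ⟨o⟩ := hc.nonempty
  choose η hη using fun (n : ℕ) (x : V) => exists_sqrt (ξ n x) (hξ1 n x).1
  -- variation along paths
  have hvar1 : ∀ (n : ℕ) (k : ℕ) (x y : V), G.dist x y = k →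
      ‖ξ n x - ξ n y‖ ≤ k * (1 / 2) ^ n := by
    intro n k
    induction k with
    | zero =>
      intro x y h
      rw [hc.dist_eq_zero_iff.1 h]
      simp
    | succ k ih =>
      intro x y h
      obtain ⟨u, hu1, hu2⟩ := Pool.Agent.Q255.Bridged.exists_parent (G := G) (z := x) (v := y)
        (k := k) h
      have h1 := ih x u hu2
      have h2 := hξ2 n u y hu1
      have h3 : ‖ξ n x - ξ n y‖ ≤ ‖ξ n x - ξ n u‖ + ‖ξ n u - ξ n y‖ :=
        norm_sub_le_norm_sub_add_norm_sub _ _ _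
      push_cast
      linarith
  have hvar : ∀ (n : ℕ) (x y : V), ‖η n x - η n y‖ ^ 2 ≤ G.dist x y * (1 / 2) ^ n := by
    intro n x y
    exact (sqrt_norm_le (hξ1 n x).1 (hξ1 n y).1 (hη n x) (hη n y)).trans (hvar1 n _ x y rfl)
  have hgeo : HasSum (fun n : ℕ => ((1 : ℝ) / 2) ^ n) 2 := hasSum_geometric_two
  have hsum : ∀ x y : V, Summable fun n => ‖η n x - η n y‖ ^ 2 := by
    intro x y
    exact Summable.of_nonneg_of_le (fun n => by positivity) (fun n => hvar n x y)
      (hgeo.summable.mul_left _)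
  have hmem : ∀ x : V, Memℓp (fun n => η n x - η n o) 2 := fun x => memlp_two (hsum x o)
  let f : V → lp (fun _ : ℕ => lp (fun _ : V => ℝ) 2) 2 := fun x => ⟨_, hmem x⟩
  have hf : ∀ x y n, (f x - f y) n = η n x - η n y := by
    intro x y n
    rw [lp.coeFn_sub, Pi.sub_apply]
    show (η n x - η n o) - (η n y - η n o) = η n x - η n y
    abel
  have hfs : ∀ x y, HasSum (fun n => ‖η n x - η n y‖ ^ 2) (‖f x - f y‖ ^ 2) := by
    intro x y
    have h := hasSum_sq (f x - f y)
    simp only [hf] at h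
    exact h
  refine ⟨lp (fun _ : ℕ => lp (fun _ : V => ℝ) 2) 2, inferInstance, inferInstance, inferInstance,
    f, fun x y => ?_⟩
  constructor
  · refine Real.sqrt_le_iff.2 ⟨norm_nonneg _, ?_⟩
    have h1 : ∀ n ∈ (Finset.range ⌊(G.dist x y : ℝ)⌋₊).filter
        fun n => (2 * (S n : ℝ)) < (G.dist x y : ℝ), ‖η n x - η n y‖ ^ 2 = 2 := by
      intro n hn
      rw [Finset.mem_filter] at hn
      have h2 : 2 * S n < G.dist x y := by exact_mod_cast hn.2
      refine sqrt_norm_eq (hξ1 n x).1 (hξ1 n y).1 (hη n x) (hη n y) (hξ1 n x).2.1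
        (hξ1 n y).2.1 fun v => ?_
      have h3 := hc.dist_triangle (u := x) (v := v) (w := y)
      rw [SimpleGraph.dist_comm (u := v) (v := y)] at h3
      rcases Nat.lt_or_ge (S n) (G.dist x v) with h4 | h4
      · exact Or.inl ((hξ1 n x).2.2 v h4)
      · exact Or.inr ((hξ1 n y).2.2 v (by omega))
    have h2 := sum_le_hasSum ((Finset.range ⌊(G.dist x y : ℝ)⌋₊).filter
        fun n => (2 * (S n : ℝ)) < (G.dist x y : ℝ)) (fun n _ => by positivity) (hfs x y)
    rw [Finset.sum_congr rfl h1, Finset.sum_const, nsmul_eq_mul] at h2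
    show 2 * (cnt S (G.dist x y : ℝ) : ℝ) ≤ ‖f x - f y‖ ^ 2
    rw [mul_comm]
    exact h2
  · apply Real.le_sqrt_of_sq_le
    have h1 := hasSum_le (fun n => hvar n x y) (hfs x y) (hgeo.mul_left (G.dist x y : ℝ))
    linarith

/-- Uniform coarse embeddings: the control functions depend only on `N`. -/
theorem coarse_unif (N : ℕ) : ∃ ρm : ℝ → ℝ, Monotone ρm ∧ (∀ t, 0 ≤ ρm t) ∧
    Tendsto ρm atTop atTop ∧
    ∀ (V : Type u) (E : Type v) (C : Type w) (X : Cx V E C) (_ : X.C4)
      (_ : X.T4) (_ : X.SimplyConnected) (_ : X.LocallyFinite N),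
      ∃ (H : Type u) (_ : NormedAddCommGroup H) (_ : InnerProductSpace ℝ H)
        (_ : CompleteSpace H) (f : V → H), ∀ x y : V,
          ρm (X.graph.dist x y) ≤ ‖f x - f y‖ ∧
          ‖f x - f y‖ ≤ Real.sqrt (2 * (X.graph.dist x y : ℝ)) := by
  choose S hS using fun n : ℕ => measures_unif.{u, v, w} N (ε := (1 / 2) ^ n) (by positivity)
  refine ⟨fun t => Real.sqrt (2 * cnt S t), ?_, fun t => Real.sqrt_nonneg _, ?_, ?_⟩
  · intro s t hst
    refine Real.sqrt_le_sqrt ?_
    have : (cnt S s : ℝ) ≤ cnt S t := by exact_mod_cast cnt_mono S hst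
    linarith
  · refine Real.tendsto_sqrt_atTop.comp ?_
    exact (tendsto_natCast_atTop_atTop.comp (cnt_tend S)).const_mul_atTop (by norm_num)
  · intro V E C X hC hT hSC hL
    choose ξ h1 h2 using fun n : ℕ => hS n V E C X hC hT hSC hL
    exact coarse_fix (X.graph_conn hSC) h1 h2

end Pool.Agent.U251.PA
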