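import Pool.Agent.U251.PA.FinU

/-!
# Property A of groups acting properly on C(4)-T(4) complexes
-/

set_option autoImplicit false

universe u v w

namespace Pool.Agent.U251.PA

open SimpleGraph Pool.Agent.Helper556_sys Pool.Agent.H169Q

/-- Property A of the discrete group `Γ` (for a countable group: Yu's Property A for one, hence
for every, proper left invariant metric; the sets `gF` with `F` finite are the sets contained in
balls around `g` of a fixed radius): for all finite `K ⊆ Γ` and `ε > 0` there are a finite set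
`F ⊆ Γ` and finite nonempty sets `A g ⊆ gF × ℕ` with `|A g Δ A h| < ε |A g ∩ A h|` whenever
`g⁻¹h ∈ K`. -/
def GroupPropertyA (Γ : Type*) [Group Γ] : Prop :=
  ∀ (K : Finset Γ) (ε : ℝ), 0 < ε → ∃ (F : Finset Γ) (A : Γ → Set (Γ × ℕ)),
    (∀ g, (A g).Finite ∧ (A g).Nonempty ∧ ∀ p ∈ A g, g⁻¹ * p.1 ∈ F) ∧
    ∀ g h, g⁻¹ * h ∈ K → ((symmDiff (A g) (A h)).ncard : ℝ) < ε * ((A g ∩ A h).ncard : ℝ)

section act

variable {V : Type*} {Γ : Type*} [Group Γ] [MulAction Γ V] {G : SimpleGraph V}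

theorem dist_smul_le (hc : G.Connected) (hact : ∀ (g : Γ) (x y : V), G.Adj x y →
    G.Adj (g • x) (g • y)) (g : Γ) (x y : V) : G.dist (g • x) (g • y) ≤ G.dist x y := by
  obtain ⟨p, hp⟩ := hc.exists_walk_length_eq_dist x y
  let f : G →g G := ⟨fun z => g • z, fun h => hact g _ _ h⟩
  have h1 := SimpleGraph.dist_le (p.map f)
  rw [Walk.length_map, hp] at h1
  exact h1

theorem dist_smul (hc : G.Connected) (hact : ∀ (g : Γ) (x y : V), G.Adj x y →
    G.Adj (g • x) (g • y)) (g : Γ) (x y : V) : G.dist (g • x) (g • y) = G.dist x y := by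
  refine le_antisymm (dist_smul_le hc hact g x y) ?_
  have h := dist_smul_le hc hact g⁻¹ (g • x) (g • y)
  rwa [inv_smul_smul, inv_smul_smul] at h

theorem countable_of_balls (hc : G.Connected) (hf : ∀ x n, {y | G.dist x y ≤ n}.Finite) :
    Countable V := by
  obtain ⟨o⟩ := hc.nonempty
  rw [← Set.countable_univ_iff]
  have : (Set.univ : Set V) = ⋃ n : ℕ, {y | G.dist o y ≤ n} := by
    ext y
    simp only [Set.mem_univ, Set.mem_iUnion, Set.mem_ofPred_eq, true_iff]
    exact ⟨G.dist o y, le_rfl⟩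
  rw [this]
  exact Set.countable_iUnion fun n => (hf o n).countable

/-- A group acting with finite stabilisers on a locally finite graph with Property A (in Yu's
form) has Property A. -/
theorem group_of_yu (hc : G.Connected) (hf : ∀ x n, {y | G.dist x y ≤ n}.Finite)
    (hact : ∀ (g : Γ) (x y : V), G.Adj x y → G.Adj (g • x) (g • y))
    (hst : ∀ x : V, {g : Γ | g • x = x}.Finite)
    (hA : ∀ R ε : ℝ, 0 < R → 0 < ε → ∃ S : ℝ, 0 < S ∧ ∃ A : V → Set (V × ℕ),
      (∀ x, (A x).Finite ∧ (A x).Nonempty ∧ ∀ p ∈ A x, (G.dist x p.1 : ℝ) ≤ S) ∧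
      ∀ x y, (G.dist x y : ℝ) ≤ R →
        ((symmDiff (A x) (A y)).ncard : ℝ) < ε * ((A x ∩ A y).ncard : ℝ)) :
    GroupPropertyA Γ := by
  classical
  intro K ε hε
  have := countable_of_balls hc hf
  obtain ⟨enc, henc⟩ := exists_injective_nat V
  obtain ⟨o⟩ := hc.nonempty
  -- orbit representatives
  let r : V → V := fun x => (Quotient.out (Quotient.mk (MulAction.orbitRel Γ V) x) : V)
  have hr : ∀ x, ∃ g : Γ, g • r x = x := by
    intro x
    have h1 : (MulAction.orbitRel Γ V).r (r x) x :=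
      Quotient.exact (Quotient.out_eq (Quotient.mk (MulAction.orbitRel Γ V) x))
    have h2 := (MulAction.orbitRel Γ V).symm h1
    obtain ⟨g, hg⟩ := h2
    exact ⟨g, hg⟩
  have hrg : ∀ (g : Γ) x, r (g • x) = r x := by
    intro g x
    have : Quotient.mk (MulAction.orbitRel Γ V) (g • x) =
        Quotient.mk (MulAction.orbitRel Γ V) x := Quotient.sound ⟨g, rfl⟩
    simp only [r, this]
  choose h hh using hr
  set R : ℝ := (∑ k ∈ K, G.dist o (k • o) : ℕ) + 1 with hR
  have hRpos : 0 < R := by positivity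
  obtain ⟨S, hS, A, hA1, hA2⟩ := hA R ε hRpos hε
  let Φ : V × ℕ → Γ × ℕ := fun p => (h p.1, Nat.pair (enc p.1) p.2)
  have hΦ : Function.Injective Φ := by
    rintro ⟨x, n⟩ ⟨y, m⟩ hxy
    simp only [Φ, Prod.mk.injEq, Nat.pair_eq_pair] at hxy
    obtain ⟨_, h1, h2⟩ := hxy
    rw [henc h1, h2]
  -- the finite set
  have hFfin : {k : Γ | ∃ z, G.dist o z ≤ ⌊S⌋₊ ∧ k • r z = z}.Finite := by
    have h1 : {k : Γ | ∃ z, G.dist o z ≤ ⌊S⌋₊ ∧ k • r z = z} =
        ⋃ z ∈ {z | G.dist o z ≤ ⌊S⌋₊}, {k : Γ | k • r z = z} := by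
      ext k
      simp only [Set.mem_iUnion, Set.mem_ofPred_eq, exists_prop]
    rw [h1]
    refine (hf o ⌊S⌋₊).biUnion fun z _ => ?_
    refine ((hst (r z)).image fun g => h z * g).subset ?_
    intro k hk
    refine ⟨(h z)⁻¹ * k, ?_, by simp⟩
    show ((h z)⁻¹ * k) • r z = r z
    have hk' : k • r z = z := hk
    rw [mul_smul, hk', inv_smul_eq_iff, hh z]
  refine ⟨hFfin.toFinset, fun g => Φ '' A (g • o), fun g => ⟨?_, ?_, ?_⟩, fun g g' hgg' => ?_⟩
  · exact (hA1 (g • o)).1.image Φ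
  · exact (hA1 (g • o)).2.1.image Φ
  · rintro _ ⟨⟨x, n⟩, hp, rfl⟩
    rw [Set.Finite.mem_toFinset]
    refine ⟨g⁻¹ • x, ?_, ?_⟩
    · have h1 := (hA1 (g • o)).2.2 _ hp
      have h2 := dist_smul hc hact g o (g⁻¹ • x)
      rw [smul_inv_smul] at h2
      rw [← h2]
      exact Nat.le_floor h1
    · show (g⁻¹ * h x) • r (g⁻¹ • x) = g⁻¹ • x
      rw [hrg, mul_smul, hh x]
  · have hd : (G.dist (g • o) (g' • o) : ℝ) ≤ R := by
      have h1 : G.dist (g • o) (g' • o) = G.dist o ((g⁻¹ * g') • o) := by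
        rw [← dist_smul hc hact g o ((g⁻¹ * g') • o), ← mul_smul, mul_inv_cancel_left]
      have h2 : G.dist o ((g⁻¹ * g') • o) ≤ ∑ k ∈ K, G.dist o (k • o) :=
        Finset.single_le_sum (f := fun k : Γ => G.dist o (k • o)) (fun _ _ => Nat.zero_le _) hgg'
      rw [h1, hR]
      have h3 : (G.dist o ((g⁻¹ * g') • o) : ℝ) ≤ (∑ k ∈ K, G.dist o (k • o) : ℕ) := by
        exact_mod_cast h2
      linarith
    have h1 := hA2 _ _ hd
    have e1 : symmDiff (Φ '' A (g • o)) (Φ '' A (g' • o)) =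
        Φ '' (symmDiff (A (g • o)) (A (g' • o))) := (Set.image_symmDiff hΦ _ _).symm
    have e2 : Φ '' A (g • o) ∩ Φ '' A (g' • o) = Φ '' (A (g • o) ∩ A (g' • o)) :=
      (Set.image_inter hΦ).symm
    show ((symmDiff (Φ '' A (g • o)) (Φ '' A (g' • o))).ncard : ℝ) <
      ε * ((Φ '' A (g • o) ∩ Φ '' A (g' • o)).ncard : ℝ)
    rw [e1, e2, Set.ncard_image_of_injective _ hΦ, Set.ncard_image_of_injective _ hΦ]
    exact h1

end act

/-- Groups acting with finite vertex stabilisers on a simply connected, uniformly locally finite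
C(4)-T(4) complex have Property A. -/
theorem group_c4t4 {V : Type u} {E : Type v} {C : Type w} (X : Cx V E C) (hC : X.C4) (hT : X.T4)
    (hS : X.SimplyConnected) (N : ℕ) (hL : X.LocallyFinite N) {Γ : Type*} [Group Γ]
    [MulAction Γ V] (hact : ∀ (g : Γ) (x y : V), X.graph.Adj x y → X.graph.Adj (g • x) (g • y))
    (hst : ∀ x : V, {g : Γ | g • x = x}.Finite) : GroupPropertyA Γ := by
  refine group_of_yu (G := X.graph) (X.graph_conn hS) ?_ hact hst ?_
  · intro x n
    obtain ⟨B, hB, _⟩ := ball_finset (X.graph_conn hS) (X.ball_bd hS hL) x n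
    exact B.finite_toSet.subset fun q hq => (hB q).2 hq
  · intro R ε hR hε
    obtain ⟨S, hSpos, h⟩ := yu_unif.{u, v, w} N R ε hR hε
    exact ⟨S, hSpos, h V E C X hC hT hS hL⟩

end Pool.Agent.U251.PA
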