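import Pool.Agent.helper169_quad.Fin
import Pool.Agent.helper169_quad.Conv
import Pool.Agent.U251.PA.RelU

/-!
# Uniform Property A for C(4)-T(4) complexes

The proofs follow `Cx.measures` (`Pool/Agent/helper169_quad/Fin.lean`), `propertyA_of_measures`
and `yu_of_propertyA`, with the radius chosen before the complex.
-/

set_option autoImplicit false

universe u v w

namespace Pool.Agent.U251.PA

open SimpleGraph Pool.Agent.Helper556_sys Pool.Agent.H169Q

theorem flows_unif {V : Type*} {G : SimpleGraph V} (hG : Qd G)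
    (hf : ∀ v, (G.neighborSet v).Finite) {N : ℕ} (hN : EdgeN G N)
    (hN1 : 1 ≤ N) (o : V) (R : ℕ) :
    ∃ (a b : V → V), Flows G o N R (2 * (R + 1) + 1) a b := by
  refine ⟨(phi G o)^[R + 1], fun v => fth G o ((phi G o)^[R + 1] v), ?_⟩
  refine ⟨hG.it_lip hf o (R + 1),
    fun u v => (hG.fth_lip o _ _).trans (hG.it_lip hf o (R + 1) u v), ?_, ?_, ?_, ?_, ?_⟩
  · intro v
    have := hG.dist_it hf o (R + 1) v
    omega
  · intro v
    have h1 := hG.dist_it hf o (R + 1) v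
    have h2 := hG.dist_fth o ((phi G o)^[R + 1] v)
    have h3 := hG.tri v ((phi G o)^[R + 1] v) (fth G o ((phi G o)^[R + 1] v))
    show G.dist v (fth G o ((phi G o)^[R + 1] v)) ≤ 2 * (R + 1) + 1
    omega
  · intro p q h
    rw [hG.it_lev hf, hG.it_lev hf, h]
  · intro p q h
    show G.dist o (fth G o ((phi G o)^[R + 1] p)) = G.dist o (fth G o ((phi G o)^[R + 1] q))
    rw [hG.fth_lev, hG.fth_lev, hG.it_lev hf, hG.it_lev hf, h]
  · intro k Q hk ha hb hR
    exact hG.card_leN hf hN hN1 Q hk (by omega) (by omega) ha hb hR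

/-- Almost invariant probability measures whose radius depends only on `N` and `ε`. -/
theorem measures_unif (N : ℕ) {ε : ℝ} (hε : 0 < ε) :
    ∃ S : ℕ, ∀ (V : Type u) (E : Type v) (C : Type w) (X : Cx V E C) (_ : X.C4) (_ : X.T4)
      (_ : X.SimplyConnected) (_ : X.LocallyFinite N),
      ∃ ξ : V → lp (fun _ : V => ℝ) 1, (∀ x, ξ x ∈ Sx X.graph x S) ∧
        ∀ x y, X.graph.Adj x y → ‖ξ x - ξ y‖ ≤ ε := by
  classical
  obtain ⟨S0, hS0⟩ := rel_unif.{u, max u v w} (Δ := N + 1) (C := 2 * N + 1) (c := 2) (by omega)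
    (fun R => 2 * (R + 1) + 1) (half_pos hε)
  obtain ⟨K, hK⟩ := exists_nat_gt (2 / (ε / 2))
  have hK0 : 0 < K := by
    have h1 : (0 : ℝ) < K := lt_of_le_of_lt (by positivity) hK
    exact_mod_cast h1
  have hKε : 2 / (K : ℝ) ≤ ε / 2 := by
    have h1 : (0 : ℝ) < K := by exact_mod_cast hK0
    rw [div_le_iff₀ h1]
    rw [div_lt_iff₀ (by positivity)] at hK
    linarith
  refine ⟨Mk (24 * Fl.Dev.sq N (S0 + 3 + 1) * (N + 1)) N K, ?_⟩
  intro V E C X hC hT hS hL
  have hQ : Qd (X.ssq hC hT).gr := X.ssq_qd hC hT hS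
  have hH := X.graph_conn hS
  have hfH : ∀ x n, {y | X.graph.dist x y ≤ n}.Finite := by
    intro x n
    obtain ⟨B, hB, _⟩ := ball_finset hH (X.ball_bd hS hL) x n
    exact B.finite_toSet.subset fun q hq => (hB q).2 hq
  obtain ⟨ξ, hξ1, hξ2⟩ := hS0 V (V ⊕ Fl.C' X.fl) X.graph (X.ssq hC hT).gr hH hQ.conn
    (X.ball_bd hS hL) Sum.inl (fun x y h => X.adj_two hC hT hS h) (Sum.inl hS.1.some)
    (fun R => flows_unif hQ (X.nb_fin hC hT hS hL) (X.edgeN hC hT hS hL) (by omega) _ R)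
  refine compactness hfH fun F => ?_
  have hcomb := combine (H := X.graph) (ι := Sum.inl) (ξ := ξ) (c := 2)
    (S1 := Mk (24 * Fl.Dev.sq N (S0 + 3 + 1) * (N + 1)) N K) hQ.conn hξ1
    (ball_fin hQ.conn (X.nb_fin hC hT hS hL)) (fun x y h => X.adj_two hC hT hS h)
    (half_pos hε).le hξ2 F (by
      intro w
      obtain ⟨z, hz⟩ : ∃ z, (X.ssq hC hT).gr.dist (Sum.inl z) w ≤ 1 := by
        rcases w with z | c
        · exact ⟨z, by rw [SimpleGraph.dist_self]; omega⟩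
        · have hex : ∃ κ : Fl.K' X.fl, X.cor.ck' κ = c := by
            rcases c with c | ⟨s, e, he, rfl⟩
            · exact ⟨Sum.inl ⟨c, 0⟩, rfl⟩
            · exact ⟨Sum.inr ⟨e, he⟩, rfl⟩
          obtain ⟨κ, rfl⟩ := hex
          exact ⟨X.cor.vk' κ, (dist_eq_one_iff_adj.2
            ((X.dev hC hT hS hS.1.some).adj κ)).le⟩
      obtain ⟨η, hη1, hη2⟩ := part_meas (G := (X.dev hC hT hS z).Gl (S0 + 3 + 2)) (H := X.graph)
        (s := Fl.Dev.sq N (S0 + 3 + 1)) (Δ := N) (K := K)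
        (by
          rintro u v ⟨h1, e, h2, h3, _⟩
          exact ⟨h1, e, h2, h3⟩)
        (Fl.Dev.sq_pos _ _)
        ((X.dev hC hT hS z).sep_Gl (X.cells_bd hL) (S0 + 3 + 1))
        (by
          intro v T hT'
          apply X.adj_bd hL v
          intro t ht
          obtain ⟨_, e, h2, h3, _⟩ := hT' t ht
          exact ⟨e, h2, h3⟩)
        hK0 F
      refine ⟨η, hη1, ?_⟩
      intro x hx y hy hxy h1 h2
      refine (hη2 x hx y hy (X.low_adj hC hT hS hxy ?_)).trans hKε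
      have h3 := hQ.conn.dist_triangle (u := Sum.inl z) (v := w) (w := Sum.inl x)
      rw [SimpleGraph.dist_comm (u := w) (v := Sum.inl x)] at h3
      show (X.ssq hC hT).gr.dist (Sum.inl z) (Sum.inl x) ≤ S0 + 3
      omega)
  obtain ⟨ζ, h1, h2⟩ := hcomb
  exact ⟨ζ, h1, fun x hx y hy hxy => (h2 x hx y hy hxy).trans (by linarith)⟩

theorem meas_dist {V : Type*} {G : SimpleGraph V} (hc : G.Connected) {δ : ℝ}
    {ξ : V → lp (fun _ : V => ℝ) 1}
    (h2 : ∀ x y, G.Adj x y → ‖ξ x - ξ y‖ ≤ δ) : ∀ (k : ℕ) (x y : V), G.dist x y = k →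
      ‖ξ x - ξ y‖ ≤ k * δ := by
  intro k
  induction k with
  | zero =>
    intro x y h
    rw [hc.dist_eq_zero_iff.1 h]
    simp
  | succ k ih =>
    intro x y h
    obtain ⟨u, hu1, hu2⟩ := Pool.Agent.Q255.Bridged.exists_parent (G := G) (z := x) (v := y)
      (k := k) h
    have h3 := ih x u hu2
    have h4 := h2 u y hu1
    have h5 : ‖ξ x - ξ y‖ ≤ ‖ξ x - ξ u‖ + ‖ξ u - ξ y‖ := norm_sub_le_norm_sub_add_norm_sub _ _ _
    push_cast
    linarith

/-- The conversion of measures into sets, for a given radius. -/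
theorem yu_fix {V : Type*} {G : SimpleGraph V} (hc : G.Connected) {Δ : ℕ}
    (hΔ : ∀ (v : V) (T : Finset V), (∀ t ∈ T, G.dist v t ≤ 1) → T.card ≤ Δ)
    {R ε δ S : ℝ} (hε : 0 < ε) (hδ0 : 0 < δ) (hδ1 : δ ≤ 1 / 4) (hδ2 : 8 * δ ≤ ε) (hS : 0 < S)
    {ξ : V → lp (fun _ : V => ℝ) 1} (h1 : ∀ y, ‖ξ y‖ = 1)
    (h2 : ∀ y z, ξ y z ≠ 0 → (G.dist y z : ℝ) ≤ S)
    (h3 : ∀ y z, (G.dist y z : ℝ) ≤ R → ‖ξ y - ξ z‖ ≤ δ) :
    ∃ A : V → Set (V × ℕ),
      (∀ x, (A x).Finite ∧ (A x).Nonempty ∧ ∀ p ∈ A x, (G.dist x p.1 : ℝ) ≤ S) ∧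
      ∀ x y, (G.dist x y : ℝ) ≤ R →
        ((symmDiff (A x) (A y)).ncard : ℝ) < ε * ((A x ∩ A y).ncard : ℝ) := by
  classical
  choose bl hbl1 hbl2 using fun x => ball_finset hc hΔ x ⌊S⌋₊
  set B := Δ ^ ⌊S⌋₊ with hB
  obtain ⟨M, hM⟩ := exists_nat_gt (2 * (B : ℝ) / δ)
  have hMpos : (0 : ℝ) < M := lt_of_le_of_lt (by positivity) hM
  have hMB : 2 * (B : ℝ) ≤ M * δ := by
    rw [div_lt_iff₀ hδ0] at hM
    exact hM.le
  have hmem : ∀ x z, ξ x z ≠ 0 → z ∈ bl x := by
    intro x z h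
    rw [hbl1]
    exact Nat.le_floor (h2 x z h)
  let f : V → V → ℕ := fun x z => ⌈(M : ℝ) * |ξ x z|⌉₊
  have hf0 : ∀ x z, z ∉ bl x → f x z = 0 := by
    intro x z hz
    have : ξ x z = 0 := by
      by_contra h
      exact hz (hmem x z h)
    simp [f, this]
  have hsum : ∀ x (T : Finset V), bl x ⊆ T → ∑ z ∈ T, |ξ x z| = 1 := by
    intro x T hT
    rw [← h1 x]
    refine (hasSum_sum_of_ne_finset_zero fun z hz => ?_).unique (hasSum_norm_one (ξ x))
    rw [abs_eq_zero]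
    by_contra h
    exact hz (hT (hmem x z h))
  let A : V → Set (V × ℕ) := fun x => {p | p.2 < f x p.1}
  have hAf : ∀ x, A x = {p : V × ℕ | (0 : ℕ) ≤ p.2 ∧ p.2 < f x p.1} := by
    intro x
    ext p
    simp [A]
  have hcard : ∀ x (T : Finset V), bl x ⊆ T → (M : ℝ) ≤ ∑ z ∈ T, (f x z : ℝ) := by
    intro x T hT
    calc (M : ℝ) = ∑ z ∈ T, (M : ℝ) * |ξ x z| := by rw [← Finset.mul_sum, hsum x T hT, mul_one]
      _ ≤ ∑ z ∈ T, (f x z : ℝ) := Finset.sum_le_sum fun z _ => Nat.le_ceil _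
  refine ⟨A, fun x => ⟨?_, ?_, ?_⟩, fun x y hxy => ?_⟩
  · rw [hAf]
    refine (ncard_fib (T := bl x) (lo := fun _ => 0) (hi := f x) fun z hz => ?_).1
    by_contra h
    rw [hf0 x z h] at hz
    exact lt_irrefl _ hz
  · by_contra hne
    rw [Set.not_nonempty_iff_eq_empty] at hne
    have h4 := hcard x (bl x) subset_rfl
    have h5 : ∀ z ∈ bl x, (f x z : ℝ) = 0 := by
      intro z _
      have h6 : (z, 0) ∉ A x := by
        rw [hne]
        exact Set.notMem_empty _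
      have h7 : ¬ 0 < f x z := h6
      have h8 : f x z = 0 := by omega
      rw [h8]
      simp
    rw [Finset.sum_eq_zero h5] at h4
    linarith
  · intro p hp
    have h4 : p.1 ∈ bl x := by
      by_contra h
      have h5 : p.2 < f x p.1 := hp
      rw [hf0 x p.1 h] at h5
      omega
    rw [hbl1] at h4
    exact (Nat.le_floor_iff hS.le).1 h4
  · set T := bl x ∪ bl y with hT
    have hTx : bl x ⊆ T := Finset.subset_union_left
    have hTy : bl y ⊆ T := Finset.subset_union_right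
    have hsd : symmDiff (A x) (A y) = {p : V × ℕ | min (f x p.1) (f y p.1) ≤ p.2 ∧
        p.2 < max (f x p.1) (f y p.1)} := by
      ext p
      rw [Set.mem_symmDiff]
      show (p.2 < f x p.1 ∧ ¬ p.2 < f y p.1 ∨ p.2 < f y p.1 ∧ ¬ p.2 < f x p.1) ↔
        (min (f x p.1) (f y p.1) ≤ p.2 ∧ p.2 < max (f x p.1) (f y p.1))
      omega
    have hin : A x ∩ A y = {p : V × ℕ | (0 : ℕ) ≤ p.2 ∧ p.2 < min (f x p.1) (f y p.1)} := by
      ext p
      show (p.2 < f x p.1 ∧ p.2 < f y p.1) ↔ (0 ≤ p.2 ∧ p.2 < min (f x p.1) (f y p.1))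
      omega
    have e1 := (ncard_fib (T := T) (lo := fun z => min (f x z) (f y z))
      (hi := fun z => max (f x z) (f y z)) (by
        intro z hz
        by_contra h
        rw [hT, Finset.mem_union] at h
        push Not at h
        rw [hf0 x z h.1, hf0 y z h.2] at hz
        simp at hz)).2
    have e2 := (ncard_fib (T := T) (lo := fun _ => 0)
      (hi := fun z => min (f x z) (f y z)) (by
        intro z hz
        by_contra h
        rw [hT, Finset.mem_union] at h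
        push Not at h
        rw [hf0 x z h.1, hf0 y z h.2] at hz
        simp at hz)).2
    rw [hsd, hin, e1, e2]
    have e3 : ∀ z, ((max (f x z) (f y z) - min (f x z) (f y z) : ℕ) : ℝ) ≤
        M * |(ξ x - ξ y) z| + 1 := by
      intro z
      have key : ∀ a b : ℝ, 0 ≤ a → 0 ≤ b → a ≤ b →
          ((max ⌈a⌉₊ ⌈b⌉₊ - min ⌈a⌉₊ ⌈b⌉₊ : ℕ) : ℝ) ≤ |a - b| + 1 := by
        intro a b ha hb hab
        have k1 : ⌈a⌉₊ ≤ ⌈b⌉₊ := Nat.ceil_mono hab
        rw [max_eq_right k1, min_eq_left k1, Nat.cast_sub k1, abs_sub_comm, abs_of_nonneg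
          (sub_nonneg.2 hab)]
        have k2 := Nat.ceil_lt_add_one hb
        have k3 := Nat.le_ceil a
        linarith
      have key2 : ((max (f x z) (f y z) - min (f x z) (f y z) : ℕ) : ℝ) ≤
          abs ((M : ℝ) * abs (ξ x z) - M * abs (ξ y z)) + 1 := by
        rcases le_total ((M : ℝ) * abs (ξ x z)) (M * abs (ξ y z)) with h | h
        · exact key _ _ (by positivity) (by positivity) h
        · have := key _ _ (by positivity) (by positivity) h
          rw [max_comm, min_comm, abs_sub_comm]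
          exact this
      refine key2.trans ?_
      rw [← mul_sub, abs_mul, abs_of_pos hMpos]
      have e4 : (ξ x - ξ y) z = ξ x z - ξ y z := by
        rw [lp.coeFn_sub, Pi.sub_apply]
      rw [e4]
      have := abs_abs_sub_abs_le_abs_sub (ξ x z) (ξ y z)
      gcongr
    have hT2 : (T.card : ℝ) ≤ 2 * B := by
      have k1 := Finset.card_union_le (bl x) (bl y)
      have k2 := hbl2 x
      have k3 := hbl2 y
      rw [← hT] at k1
      have k4 : T.card ≤ 2 * B := by omega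
      exact_mod_cast k4
    have e5 : ((∑ z ∈ T, (max (f x z) (f y z) - min (f x z) (f y z)) : ℕ) : ℝ) ≤
        2 * (M * δ) := by
      push_cast
      calc ∑ z ∈ T, ((max (f x z) (f y z) - min (f x z) (f y z) : ℕ) : ℝ)
          ≤ ∑ z ∈ T, (M * |(ξ x - ξ y) z| + 1) := Finset.sum_le_sum fun z _ => e3 z
        _ = M * ∑ z ∈ T, |(ξ x - ξ y) z| + T.card := by
            rw [Finset.sum_add_distrib, ← Finset.mul_sum, Finset.sum_const, nsmul_eq_mul, mul_one]
        _ ≤ M * δ + 2 * B := by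
            have k1 : ∑ z ∈ T, |(ξ x - ξ y) z| ≤ ‖ξ x - ξ y‖ :=
              sum_le_hasSum T (fun _ _ => abs_nonneg _) (hasSum_norm_one _)
            have k2 := h3 x y hxy
            have k3 : (M : ℝ) * ∑ z ∈ T, |(ξ x - ξ y) z| ≤ M * δ :=
              mul_le_mul_of_nonneg_left (k1.trans k2) hMpos.le
            linarith
        _ ≤ 2 * (M * δ) := by linarith
    have e6 : (M : ℝ) - 2 * (M * δ) ≤ ((∑ z ∈ T, (min (f x z) (f y z) - 0) : ℕ) : ℝ) := by
      have k1 : ∑ z ∈ T, f x z ≤ ∑ z ∈ T, (min (f x z) (f y z) - 0) +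
          ∑ z ∈ T, (max (f x z) (f y z) - min (f x z) (f y z)) := by
        rw [← Finset.sum_add_distrib]
        refine Finset.sum_le_sum fun z _ => ?_
        omega
      have k2 := hcard x T hTx
      have k3 : ((∑ z ∈ T, f x z : ℕ) : ℝ) ≤ ((∑ z ∈ T, (min (f x z) (f y z) - 0) : ℕ) : ℝ) +
          ((∑ z ∈ T, (max (f x z) (f y z) - min (f x z) (f y z)) : ℕ) : ℝ) := by
        exact_mod_cast k1
      have k4 : ((∑ z ∈ T, f x z : ℕ) : ℝ) = ∑ z ∈ T, (f x z : ℝ) := by push_cast; rfl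
      rw [k4] at k3
      linarith
    have e7 : 2 * (M * δ) < ε * (M - 2 * (M * δ)) := by
      have k1 : (M : ℝ) / 2 ≤ M - 2 * (M * δ) := by nlinarith
      have k2 : ε * (M / 2) ≤ ε * (M - 2 * (M * δ)) := mul_le_mul_of_nonneg_left k1 hε.le
      nlinarith
    calc ((∑ z ∈ T, (max (f x z) (f y z) - min (f x z) (f y z)) : ℕ) : ℝ)
        ≤ 2 * (M * δ) := e5
      _ < ε * (M - 2 * (M * δ)) := e7
      _ ≤ _ := mul_le_mul_of_nonneg_left e6 hε.le

/-- Uniform Property A: the radius `S` depends only on `N`, `R` and `ε`. -/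
theorem yu_unif (N : ℕ) (R ε : ℝ) (hR : 0 < R) (hε : 0 < ε) :
    ∃ S : ℝ, 0 < S ∧ ∀ (V : Type u) (E : Type v) (C : Type w) (X : Cx V E C) (_ : X.C4)
      (_ : X.T4) (_ : X.SimplyConnected) (_ : X.LocallyFinite N),
      ∃ A : V → Set (V × ℕ),
        (∀ x, (A x).Finite ∧ (A x).Nonempty ∧ ∀ p ∈ A x, (X.graph.dist x p.1 : ℝ) ≤ S) ∧
        ∀ x y, (X.graph.dist x y : ℝ) ≤ R →
          ((symmDiff (A x) (A y)).ncard : ℝ) < ε * ((A x ∩ A y).ncard : ℝ) := by
  obtain ⟨δ, hδ0, hδ1, hδ2⟩ : ∃ δ : ℝ, 0 < δ ∧ δ ≤ 1 / 4 ∧ 8 * δ ≤ ε :=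
    ⟨min (1 / 4) (ε / 8), by positivity, min_le_left _ _, by
      have := min_le_right (1 / 4) (ε / 8)
      linarith⟩
  obtain ⟨S, hS⟩ := measures_unif.{u, v, w} N (ε := δ / (R + 1)) (by positivity)
  refine ⟨S + 1, by positivity, ?_⟩
  intro V E C X hC hT hSC hL
  have hc := X.graph_conn hSC
  obtain ⟨ξ, h1, h2⟩ := hS V E C X hC hT hSC hL
  refine yu_fix hc (fun v T h => X.ball_bd hSC hL v T h) hε hδ0 hδ1 hδ2 (by positivity)
    (ξ := ξ) (fun y => ?_) (fun y z hyz => ?_) (fun y z hyz => ?_)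
  · have h3 := hasSum_norm_one (ξ y)
    have h4 : (fun v => |ξ y v|) = fun v => ξ y v := by
      funext v
      exact abs_of_nonneg ((h1 y).1 v)
    rw [h4] at h3
    exact h3.unique (h1 y).2.1
  · by_contra hcon
    push Not at hcon
    refine hyz ((h1 y).2.2 z ?_)
    have h3 : (S : ℝ) < X.graph.dist y z := by linarith
    exact_mod_cast h3
  · have h3 := meas_dist hc h2 _ y z rfl
    have h4 : (X.graph.dist y z : ℝ) * (δ / (R + 1)) ≤ R * (δ / (R + 1)) := by gcongr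
    have h5 : R * (δ / (R + 1)) ≤ δ := by
      rw [mul_div_assoc', div_le_iff₀ (by positivity)]
      nlinarith
    linarith

end Pool.Agent.U251.PA
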